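import Pool.Agent.K7.H46.TD.Mix

set_option autoImplicit false

/-!
# The group of a closed chain with several places with four equal signs
-/

namespace Pool.Agent.K7.H46.TD

open Pool.Agent.Y479.LS Pool.Agent.K7.H39.TB Pool.Agent.K7.H46.LO Pool.Agent.K7.H46.TW
  Pool.Agent.K7.H46.TS Aut

variable {k : ℕ} {ε : Fin k → Bool} {M : Fin k → ZMod 3 → Piece}

theorem dcol {X : Type} [LinearOrder X] (φ : Three.Grp ε M →* Aut X) {c : ℕ} (hc : c < k)
    {t : ZMod 3} (h1 : (M ⟨c, hc⟩ t).Ok) (h2 : PDouble (M ⟨c, hc⟩ t))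
    (h3 : (M ⟨c, hc⟩ t).Proper) :
    if Three.sg ε c then Dbl (Three.Rn φ c (t + 1)) (Three.Rn φ (c + 2) t)
        (Three.Rn φ (c + 1) t) (Three.Rn φ (c + 1) (t + 1)) else
      Dbl (Three.Rn φ c (t + 1)) (Three.Rn φ (c + 2) t)
        (Three.Rn φ (c + 1) (t + 1)) (Three.Rn φ (c + 1) t) := by
  have hA := congrArg φ (Three.relA (ε := ε) (M := M) ⟨c, hc⟩ t)
  rw [map_mul, map_inv, ← Three.Rn_eq, ← Three.Rn_eq, LO.Chain.left_val,
    LO.Chain.right_val] at hA
  have hs : Three.sg ε c = ε ⟨c, hc⟩ := Three.sg_eq ⟨c, hc⟩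
  split_ifs with hb
  · have ha := congrArg φ (Three.rela (ε := ε) (M := M) ⟨c, hc⟩ t (by rw [← hs]; exact hb))
    rw [map_mul, map_inv, ← Three.Rn_eq, ← Three.Rn_eq, LO.Chain.mid_val] at ha
    exact dbl_of h1 h2 h3 (ψ := φ.comp (Three.inc ⟨c, hc⟩ t)) hA ha
  · have ha := congrArg φ (Three.rela' (ε := ε) (M := M) ⟨c, hc⟩ t (by
      rw [← hs]; simpa using hb))
    rw [map_mul, map_inv, ← Three.Rn_eq, ← Three.Rn_eq, LO.Chain.mid_val] at ha
    exact dbl_of h1 h2 h3 (ψ := φ.comp (Three.inc ⟨c, hc⟩ t)) hA ha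

/-- Chains with three tangles in each column, such that between any two places with four equal signs
the tangles have two crossings in a row. -/
theorem noLO2 (hC : ∀ E r, 1 ≤ r → r ≤ 3 → Certs E r)
    (hD : ∀ A B : Bool, Ct A B [true, true, true, true]
      ((if A then [] else [(0, false)]) ++ [(1, true), (2, true), (3, true)] ++
        (if B then [] else [(4, false)])) [⟨[2 * cd 3 1], [2 * cd 3 0], true⟩])
    (T : Fin k → ZMod 3 → Tang) (hb : ∀ c t, (T c t).Bounded) (hp : ∀ c t, (T c t).Proper)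
    (hε : ∀ i j, FourEqual ε i → FourEqual ε j → i < j → ∀ c : Fin k, i < c → c.1 < j.1 + 3 →
      ∀ t, Double (T c t)) :
    NoLO (ThreeChain ε T) := by
  intro H _ hH f γ
  refine hom_trivial (1 : ThreeChain ε T) ?_ ?_ H hH f γ
  · intro X _ φ x _ γ
    refine Three.trivial_of_flat φ (fun hk hc e0 eL p => all_flat2 hC hD hc hk e0 eL ?_ p)
      (fun c t => (T c t).ok) (fun c t => (T c t).bounded (hb c t))
      (fun c t => (T c t).proper (hp c t)) x γ
    have key : ∀ a, (ha : Four (Three.sg ε) k a) →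
        FourEqual ε ⟨a, by have := ha.1; omega⟩ := by
      intro a ha
      have hak := ha.1
      refine ⟨hak, fun i h1 h2 => ?_⟩
      have := ha.2 i.1 h1 h2
      rwa [Three.sg_eq, show Three.sg ε a = ε ⟨a, by omega⟩ from
        Three.sg_eq ⟨a, by omega⟩] at this
    intro i j hi hj hij e hie hej t
    have hjk := hj.1
    exact dcol φ (by omega) ((T _ t).ok) (pdouble _ (hε _ _ (key i hi) (key j hj) hij
      ⟨e, by omega⟩ hie hej t)) ((T _ t).proper (hp _ t))
  · intro X _ _ φ h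
    obtain ⟨x⟩ := ‹Nonempty X›
    have := h x
    rw [map_one, one_apply] at this
    exact lt_irrefl _ this

end Pool.Agent.K7.H46.TD
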