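import Pool.Agent.K7.H46.TW.Chain

set_option autoImplicit false

/-!
# Chains with two crossings in each tangle: the spread of a column does not decrease

For a column `v` of three regions let `V p` be the largest of the points `(v i)⁻¹ (v j p)`. If the
tangles of the column `w` satisfy `A ≥ a ^ 2`, then `V ≤ W` implies `W ≤ Z` for the next column `z`.
-/

namespace Pool.Agent.K7.H46.TD

open Pool.Agent.Y479.LS Pool.Agent.K7.H39.TB Pool.Agent.K7.H46.LO Pool.Agent.K7.H46.TW Aut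

variable {X : Type*} [LinearOrder X]

/-- The rules for the four regions at a tangle with `A ≥ a ^ 2`. -/
def Dbl (W E S N : Aut X) : Prop :=
  (∀ p : X, N p ≤ S p → N⁻¹ (S (N⁻¹ (S p))) ≤ W⁻¹ (E p)) ∧
    (∀ p : X, S p ≤ N p → W⁻¹ (E p) ≤ N⁻¹ (S (N⁻¹ (S p))))

/-- The spread of the column `v` is at most the one of the column `w`. -/
def Dom (v w : ZMod 3 → Aut X) : Prop :=
  ∀ p i j, ∃ k l, (v i)⁻¹ (v j p) ≤ (w k)⁻¹ (w l p)

def Dom' (v w : ZMod 3 → Aut X) : Prop :=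
  ∀ p i j, ∃ k l, (w k)⁻¹ (w l p) ≤ (v i)⁻¹ (v j p)

variable {v w z : ZMod 3 → Aut X}

theorem inv_le {f : Aut X} {x y : X} : f⁻¹ x ≤ y ↔ x ≤ f y := by
  rw [← f.le_iff, self_inv]

theorem le_inv {f : Aut X} {x y : X} : x ≤ f⁻¹ y ↔ f x ≤ y := by
  rw [← f.le_iff, self_inv]

theorem inv_lt {f : Aut X} {x y : X} : f⁻¹ x < y ↔ x < f y := by
  rw [← f.lt_iff, self_inv]

theorem lt_inv {f : Aut X} {x y : X} : x < f⁻¹ y ↔ f x < y := by
  rw [← f.lt_iff, self_inv]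

theorem Dom.dual' (h : Dom v w) : Dom' v w := by
  intro q i j
  obtain ⟨k, l, hkl⟩ := h ((v i)⁻¹ (v j q)) j i
  rw [self_inv, inv_self, le_inv, ← inv_le] at hkl
  exact ⟨l, k, hkl⟩

/-- The maximum is attained in the positive direction. -/
theorem step_pos (hD : Dom v w) (hA : ∀ t, Dbl (v (t + 1)) (z t) (w t) (w (t + 1))) {p : X}
    {t : ZMod 3} (hmax : ∀ k l, (w k)⁻¹ (w l p) ≤ (w (t + 1))⁻¹ (w t p))
    (hpq : p < (w (t + 1))⁻¹ (w t p)) :
    ∃ k l, (w (t + 1))⁻¹ (w t p) < (z k)⁻¹ (z l p) := by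
  by_contra hcon
  push Not at hcon
  obtain ⟨q, hq⟩ : ∃ q, q = (w (t + 1))⁻¹ (w t p) := ⟨_, rfl⟩
  obtain ⟨m, hm⟩ : ∃ m, m = (w (t + 2))⁻¹ (w t p) := ⟨_, rfl⟩
  obtain ⟨y, hy⟩ : ∃ y, y = (v (t + 1))⁻¹ (z t p) := ⟨_, rfl⟩
  have e1 : w (t + 1) q = w t p := by rw [hq, self_inv]
  have e2 : w (t + 2) m = w t p := by rw [hm, self_inv]
  rw [← hq] at hpq
  have hmq : m ≤ q := by rw [hm, hq]; exact hmax _ _
  have hpm : p ≤ m := by
    have := hmax (t + 1) (t + 2)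
    rw [hm, le_inv]
    rwa [inv_le, self_inv] at this
  have hy0 : (w (t + 1))⁻¹ (w t q) ≤ y := by
    have := (hA t).1 p (by rw [← e1, le_iff]; exact hpq.le)
    rwa [← hq, ← hy] at this
  have hqy : q < y := by
    refine lt_of_lt_of_le ?_ hy0
    rw [lt_inv, e1, lt_iff]
    exact hpq
  have hr : ∀ u, p ≤ (v u)⁻¹ (z t p) := by
    intro u
    by_contra hlt
    rw [not_le] at hlt
    obtain ⟨k, l, hkl⟩ := hD ((v u)⁻¹ (z t p)) (t + 1) u
    rw [self_inv, ← hy] at hkl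
    have h1 : (w k)⁻¹ (w l ((v u)⁻¹ (z t p))) < (w k)⁻¹ (w l p) := by
      rw [lt_iff, lt_iff]; exact hlt
    have h2 := hmax k l
    rw [← hq] at h2
    exact absurd (hkl.trans_lt (h1.trans_le (h2.trans hqy.le))) (lt_irrefl _)
  have hA1 : (v (t + 2))⁻¹ (z (t + 1) q) ≤ m := by
    have h1 := (hA (t + 1)).2 q (by
      rw [show t + 1 + 1 = t + 2 by ring, e1, ← e2, le_iff]; exact hmq)
    rw [show t + 1 + 1 = t + 2 by ring, e1, ← hm] at h1
    refine h1.trans ?_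
    rw [inv_le, e2, ← e1, le_iff]
    exact hmq
  have hr1 : (v (t + 2))⁻¹ (z t p) ≤ m := by
    refine le_trans ?_ hA1
    rw [le_iff, ← inv_le]
    have := hcon (t + 1) t
    rwa [← hq] at this
  obtain ⟨k, l, hkl⟩ := hD ((v (t + 2))⁻¹ (z t p)) (t + 1) (t + 2)
  rw [self_inv, ← hy, le_inv] at hkl
  have K : w k y ≤ w l m := hkl.trans ((w l).le_iff.mpr hr1)
  have hym : m < y := lt_of_le_of_lt hmq hqy
  have hpy : p < y := hpq.trans hqy
  have f1 : w (t + 1) m ≤ w t p := by rw [← e1, le_iff]; exact hmq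
  obtain ⟨b, hb⟩ : ∃ b, b = (w (t + 2))⁻¹ (w t m) := ⟨_, rfl⟩
  have e3 : w (t + 2) b = w t m := by rw [hb, self_inv]
  have hqb : q < b := by
    rcases zmod3_cases t l with hl | hl | hl <;> rcases zmod3_cases t k with hk | hk | hk <;>
      rw [hl, hk] at K
    · exact absurd ((w t).le_iff.mp K) (not_le.mpr hym)
    · have h1 : (w (t + 1))⁻¹ (w t q) ≤ (w (t + 1))⁻¹ (w t m) := hy0.trans (le_inv.mpr K)
      rw [le_iff, le_iff] at h1
      have h2 : m = q := le_antisymm hmq h1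
      have e4 : w (t + 2) q = w t p := by rw [← h2, e2]
      rw [← (w (t + 2)).lt_iff, e3, h2, e4, lt_iff]
      exact hpq
    · refine lt_of_lt_of_le hqy ?_
      rw [hb, le_inv]
      exact K
    · exact absurd ((w t).le_iff.mp (K.trans f1)) (not_le.mpr hpy)
    · exact absurd ((w (t + 1)).le_iff.mp K) (not_le.mpr hym)
    · rw [← e2] at f1
      exact absurd ((w (t + 2)).le_iff.mp (K.trans f1)) (not_le.mpr hym)
    · rw [e2] at K
      exact absurd ((w t).le_iff.mp K) (not_le.mpr hpy)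
    · rw [e2, ← e1] at K
      exact absurd ((w (t + 1)).le_iff.mp K) (not_le.mpr hqy)
    · exact absurd ((w (t + 2)).le_iff.mp K) (not_le.mpr hym)
  have h1 := (hA (t + 2)).2 b (by
    rw [show t + 2 + 1 = t by rw [add_assoc]; exact add_zero t, e3, le_iff]
    exact hmq.trans hqb.le)
  rw [show t + 2 + 1 = t by rw [add_assoc]; exact add_zero t, e3, inv_self, e2, inv_self,
    inv_le] at h1
  have h2 : v t p ≤ z t p := by rw [← le_inv]; exact hr t
  have h3 : b ≤ (z (t + 2))⁻¹ (z t p) := by rw [le_inv]; exact h1.trans h2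
  have h4 := hcon (t + 2) t
  rw [← hq] at h4
  exact absurd (lt_of_lt_of_le hqb h3) (not_lt.mpr h4)

/-- The minimum is attained in the positive direction. -/
theorem step_min (hD : Dom' v w) (hA : ∀ t, Dbl (v (t + 1)) (z t) (w t) (w (t + 1))) {p : X}
    {t : ZMod 3} (hmin : ∀ k l, (w (t + 1))⁻¹ (w t p) ≤ (w k)⁻¹ (w l p))
    (hpq : (w (t + 1))⁻¹ (w t p) < p) :
    ∃ k l, (z k)⁻¹ (z l p) < (w (t + 1))⁻¹ (w t p) := by
  by_contra hcon
  push Not at hcon
  obtain ⟨q, hq⟩ : ∃ q, q = (w (t + 1))⁻¹ (w t p) := ⟨_, rfl⟩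
  obtain ⟨m, hm⟩ : ∃ m, m = (w (t + 2))⁻¹ (w t p) := ⟨_, rfl⟩
  obtain ⟨y, hy⟩ : ∃ y, y = (v (t + 1))⁻¹ (z t p) := ⟨_, rfl⟩
  have e1 : w (t + 1) q = w t p := by rw [hq, self_inv]
  have e2 : w (t + 2) m = w t p := by rw [hm, self_inv]
  rw [← hq] at hpq
  have hmq : q ≤ m := by rw [hm, hq]; exact hmin _ _
  have hpm : m ≤ p := by
    have := hmin (t + 1) (t + 2)
    rw [hm, inv_le]
    rwa [le_inv, self_inv] at this
  have hy0 : y ≤ (w (t + 1))⁻¹ (w t q) := by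
    have := (hA t).2 p (by rw [← e1, le_iff]; exact hpq.le)
    rwa [← hq, ← hy] at this
  have hqy : y < q := by
    refine lt_of_le_of_lt hy0 ?_
    rw [inv_lt, e1, lt_iff]
    exact hpq
  have hr : ∀ u, (v u)⁻¹ (z t p) ≤ p := by
    intro u
    by_contra hlt
    rw [not_le] at hlt
    obtain ⟨k, l, hkl⟩ := hD ((v u)⁻¹ (z t p)) (t + 1) u
    rw [self_inv, ← hy] at hkl
    have h1 : (w k)⁻¹ (w l p) < (w k)⁻¹ (w l ((v u)⁻¹ (z t p))) := by
      rw [lt_iff, lt_iff]; exact hlt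
    have h2 := hmin k l
    rw [← hq] at h2
    exact absurd (lt_of_le_of_lt (hqy.le.trans h2) (h1.trans_le hkl)) (lt_irrefl _)
  have hA1 : m ≤ (v (t + 2))⁻¹ (z (t + 1) q) := by
    have h1 := (hA (t + 1)).1 q (by
      rw [show t + 1 + 1 = t + 2 by ring, e1, ← e2, le_iff]; exact hmq)
    rw [show t + 1 + 1 = t + 2 by ring, e1, ← hm] at h1
    refine le_trans ?_ h1
    rw [le_inv, e2, ← e1, le_iff]
    exact hmq
  have hr1 : m ≤ (v (t + 2))⁻¹ (z t p) := by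
    refine hA1.trans ?_
    rw [le_iff, ← le_inv]
    have := hcon (t + 1) t
    rwa [← hq] at this
  obtain ⟨k, l, hkl⟩ := hD ((v (t + 2))⁻¹ (z t p)) (t + 1) (t + 2)
  rw [self_inv, ← hy, inv_le] at hkl
  have K : w l m ≤ w k y := ((w l).le_iff.mpr hr1).trans hkl
  have hym : y < m := lt_of_lt_of_le hqy hmq
  have hpy : y < p := hqy.trans hpq
  have f1 : w t p ≤ w (t + 1) m := by rw [← e1, le_iff]; exact hmq
  obtain ⟨b, hb⟩ : ∃ b, b = (w (t + 2))⁻¹ (w t m) := ⟨_, rfl⟩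
  have e3 : w (t + 2) b = w t m := by rw [hb, self_inv]
  have hqb : b < q := by
    rcases zmod3_cases t l with hl | hl | hl <;> rcases zmod3_cases t k with hk | hk | hk <;>
      rw [hl, hk] at K
    · exact absurd ((w t).le_iff.mp K) (not_le.mpr hym)
    · have h1 : (w (t + 1))⁻¹ (w t m) ≤ (w (t + 1))⁻¹ (w t q) := le_trans (inv_le.mpr K) hy0
      rw [le_iff, le_iff] at h1
      have h2 : m = q := le_antisymm h1 hmq
      have e4 : w (t + 2) q = w t p := by rw [← h2, e2]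
      rw [← (w (t + 2)).lt_iff, e3, h2, e4, lt_iff]
      exact hpq
    · refine lt_of_le_of_lt ?_ hqy
      rw [hb, inv_le]
      exact K
    · exact absurd ((w t).le_iff.mp (f1.trans K)) (not_le.mpr hpy)
    · exact absurd ((w (t + 1)).le_iff.mp K) (not_le.mpr hym)
    · rw [← e2] at f1
      exact absurd ((w (t + 2)).le_iff.mp (f1.trans K)) (not_le.mpr hym)
    · rw [e2] at K
      exact absurd ((w t).le_iff.mp K) (not_le.mpr hpy)
    · rw [e2, ← e1] at K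
      exact absurd ((w (t + 1)).le_iff.mp K) (not_le.mpr hqy)
    · exact absurd ((w (t + 2)).le_iff.mp K) (not_le.mpr hym)
  have h1 := (hA (t + 2)).1 b (by
    rw [show t + 2 + 1 = t by rw [add_assoc]; exact add_zero t, e3, le_iff]
    exact hqb.le.trans hmq)
  rw [show t + 2 + 1 = t by rw [add_assoc]; exact add_zero t, e3, inv_self, e2, inv_self,
    le_inv] at h1
  have h2 : z t p ≤ v t p := by rw [← inv_le]; exact hr t
  have h3 : (z (t + 2))⁻¹ (z t p) ≤ b := by rw [inv_le]; exact h2.trans h1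
  have h4 := hcon (t + 2) t
  rw [← hq] at h4
  exact absurd (lt_of_le_of_lt h3 hqb) (not_lt.mpr h4)

/-- The spread increases strictly where it is positive. -/
theorem Dom.strict (hD : Dom v w) (hA : ∀ t, Dbl (v (t + 1)) (z t) (w t) (w (t + 1))) (p : X) :
    ∃ s t, (∀ k l, (w k)⁻¹ (w l p) ≤ (w s)⁻¹ (w t p)) ∧
      (p < (w s)⁻¹ (w t p) → ∃ k l, (w s)⁻¹ (w t p) < (z k)⁻¹ (z l p)) := by
  obtain ⟨⟨s, t⟩, hmax⟩ := Finite.exists_max fun q : ZMod 3 × ZMod 3 => (w q.1)⁻¹ (w q.2 p)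
  have hmax' : ∀ k l, (w k)⁻¹ (w l p) ≤ (w s)⁻¹ (w t p) := fun k l => hmax (k, l)
  refine ⟨s, t, hmax', fun hlt => ?_⟩
  rcases zmod3_cases t s with h | h | h
  · rw [h, inv_self] at hlt
    exact absurd hlt (lt_irrefl _)
  · rw [h] at hmax' hlt ⊢
    exact step_pos hD hA hmax' hlt
  · obtain rfl : t = s + 1 := by rw [h, add_assoc]; exact (add_zero t).symm
    obtain ⟨q, hq⟩ : ∃ q, q = (w s)⁻¹ (w (s + 1) p) := ⟨_, rfl⟩
    have e1 : p = (w (s + 1))⁻¹ (w s q) := by rw [hq, self_inv, inv_self]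
    have hmin : ∀ k l, (w (s + 1))⁻¹ (w s q) ≤ (w k)⁻¹ (w l q) := by
      intro k l
      rw [← e1, le_inv, ← inv_le, hq]
      exact hmax' l k
    obtain ⟨k, l, h1⟩ := step_min hD.dual' hA hmin (by rw [← e1, hq]; exact hlt)
    rw [← e1, inv_lt] at h1
    refine ⟨l, k, ?_⟩
    rw [← hq, lt_inv]
    exact h1

/-- One column of positive tangles. -/
theorem Dom.step (hD : Dom v w) (hA : ∀ t, Dbl (v (t + 1)) (z t) (w t) (w (t + 1))) :
    Dom w z := by
  intro p i j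
  obtain ⟨s, t, h1, h2⟩ := hD.strict hA p
  rcases lt_or_ge p ((w s)⁻¹ (w t p)) with h3 | h3
  · obtain ⟨k, l, h4⟩ := h2 h3
    exact ⟨k, l, (h1 i j).trans h4.le⟩
  · refine ⟨0, 0, (h1 i j).trans ?_⟩
    rw [inv_self]
    exact h3

/-- If the spread does not increase, then the column is constant. -/
theorem Dom.const (hD : Dom v w) (hA : ∀ t, Dbl (v (t + 1)) (z t) (w t) (w (t + 1)))
    (hz : Dom z w) (p : X) (i j : ZMod 3) : w j p ≤ w i p := by
  obtain ⟨s, t, h1, h2⟩ := hD.strict hA p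
  rw [← inv_le]
  refine (h1 i j).trans ?_
  by_contra h3
  rw [not_le] at h3
  obtain ⟨k, l, h4⟩ := h2 h3
  obtain ⟨k', l', h5⟩ := hz p k l
  exact absurd (lt_of_lt_of_le h4 (h5.trans (h1 k' l'))) (lt_irrefl _)

/-- Change of the order of the regions. -/
theorem Dom.of {v' w' : ZMod 3 → Aut X} (h : Dom v' w') (hv : ∀ i, ∃ i', v i = v' i')
    (hw : ∀ k, ∃ k', w' k = w k') : Dom v w := by
  intro p i j
  obtain ⟨i', hi⟩ := hv i
  obtain ⟨j', hj⟩ := hv j
  obtain ⟨k, l, hkl⟩ := h p i' j'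
  obtain ⟨k', hk⟩ := hw k
  obtain ⟨l', hl⟩ := hw l
  refine ⟨k', l', ?_⟩
  rw [hi, hj, ← hk, ← hl]
  exact hkl

/-- One column of negative tangles. -/
theorem Dom.step' (hD : Dom v w) (hA : ∀ t, Dbl (v (t + 1)) (z t) (w (t + 1)) (w t)) :
    Dom w z := by
  have h1 : Dom (fun t => v (-t)) (fun t => w (-t - 1)) := by
    intro p i j
    obtain ⟨k, l, h⟩ := hD p (-i) (-j)
    refine ⟨-k - 1, -l - 1, ?_⟩
    show (v (-i))⁻¹ (v (-j) p) ≤ (w (-(-k - 1) - 1))⁻¹ (w (-(-l - 1) - 1) p)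
    rw [show -(-k - 1) - 1 = k by ring, show -(-l - 1) - 1 = l by ring]
    exact h
  have h2 := h1.step (z := fun t => z (-t - 2)) (by
    intro t
    have := hA (-t - 2)
    rw [show -t - 2 + 1 = -t - 1 by ring] at this
    rw [show -(t + 1) = -t - 1 by ring, show -t - 1 - 1 = -t - 2 by ring]
    exact this)
  intro p i j
  obtain ⟨k, l, h⟩ := h2 p (-i - 1) (-j - 1)
  simp only [show -(-i - 1) - 1 = i by ring, show -(-j - 1) - 1 = j by ring] at h
  exact ⟨_, _, h⟩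

end Pool.Agent.K7.H46.TD
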