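import Pool.Agent.K7.H46.TD.Pub
import Pool.Agent.K7.H46.TD.Step
import Pool.Agent.K7.H46.TW.Main

set_option autoImplicit false

/-!
# The group of a closed chain of tangles with two crossings in a row
-/

namespace Pool.Agent.K7.H46.TD

open Pool.Agent.Y479.LS Pool.Agent.K7.H39.TB Pool.Agent.K7.H46.LO Pool.Agent.K7.H46.TW Aut

/-- In every action by automorphisms on a linear order, `a ^ 2` is at most as large as `A` at each
point. -/
structure PDouble (M : Piece) : Prop where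
  pos : ∀ (X : Type) [LinearOrder X] (φ : M.P →* Aut X) (x : X), x < φ M.A x →
    φ M.a (φ M.a x) ≤ φ M.A x
  neg : ∀ (X : Type) [LinearOrder X] (φ : M.P →* Aut X) (x : X), φ M.A x < x →
    φ M.A x ≤ φ M.a (φ M.a x)

theorem tan_up {T : Tangle} {X : Type} [LinearOrder X] (φ : Tan.Grp T →* Aut X) (x : X)
    (hc : ∃ c d, T.b₁ c = T.south ∧ T.b₂ c = T.north ∧ T.b₁ d = T.south ∧
      T.b₂ d = T.north ∧ T.w₂ c = T.w₁ d) (h : x < φ (Tan.W T.east) x) :
    φ (Tan.B T.south) (φ (Tan.B T.south) x) ≤ φ (Tan.W T.east) x := by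
  obtain ⟨c, d, h1, h2, h3, h4, h5⟩ := hc
  have hc1 := Tan.rep (T := T) c
  have hd1 := Tan.rep (T := T) d
  rw [h1, h2, Tan.north_one, inv_one, one_mul] at hc1
  rw [h3, h4, Tan.north_one, inv_one, one_mul] at hd1
  have := T.finW
  -- `a x = (W (w₁ d))⁻¹ (W (w₂ d) x)`
  have e1 : φ (Tan.W (T.w₁ d)) (φ (Tan.B T.south) x) = φ (Tan.W (T.w₂ d)) x := by
    rw [hd1, map_mul, map_inv, mul_apply, self_inv]
  have e2 : φ (Tan.W (T.w₁ c)) (φ (Tan.B T.south) (φ (Tan.B T.south) x)) =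
      φ (Tan.W (T.w₂ d)) x := by
    conv_lhs => rw [show φ (Tan.B T.south) (φ (Tan.B T.south) x) =
      φ ((Tan.W (T.w₁ c))⁻¹ * Tan.W (T.w₂ c)) (φ (Tan.B T.south) x) by rw [hc1]]
    rw [map_mul, map_inv, mul_apply, self_inv, h5, e1]
  rw [← (φ (Tan.W (T.w₁ c))).le_iff, e2]
  have h6 : φ (Tan.W (T.w₂ d)) x ≤ φ (Tan.W T.east) x :=
    T.white.le_second (Tan.rep.map φ).white x (by rw [Tan.w_west φ x]; exact h.le) _
  have h7 : φ (Tan.W T.west) (φ (Tan.W T.east) x) ≤ φ (Tan.W (T.w₁ c)) (φ (Tan.W T.east) x) :=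
    T.white.first_le (Tan.rep.map φ).white (φ (Tan.W T.east) x)
      (by rw [Tan.w_west φ]; exact ((φ (Tan.W T.east)).lt_iff.mpr h).le) _
  rw [Tan.w_west φ] at h7
  exact h6.trans h7

theorem tan_down {T : Tangle} {X : Type} [LinearOrder X] (φ : Tan.Grp T →* Aut X) (x : X)
    (hc : ∃ c d, T.b₁ c = T.south ∧ T.b₂ c = T.north ∧ T.b₁ d = T.south ∧
      T.b₂ d = T.north ∧ T.w₂ c = T.w₁ d) (h : φ (Tan.W T.east) x < x) :
    φ (Tan.W T.east) x ≤ φ (Tan.B T.south) (φ (Tan.B T.south) x) := by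
  obtain ⟨c, d, h1, h2, h3, h4, h5⟩ := hc
  have hc1 := Tan.rep (T := T) c
  have hd1 := Tan.rep (T := T) d
  rw [h1, h2, Tan.north_one, inv_one, one_mul] at hc1
  rw [h3, h4, Tan.north_one, inv_one, one_mul] at hd1
  have := T.finW
  have e1 : φ (Tan.W (T.w₁ d)) (φ (Tan.B T.south) x) = φ (Tan.W (T.w₂ d)) x := by
    rw [hd1, map_mul, map_inv, mul_apply, self_inv]
  have e2 : φ (Tan.W (T.w₁ c)) (φ (Tan.B T.south) (φ (Tan.B T.south) x)) =
      φ (Tan.W (T.w₂ d)) x := by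
    conv_lhs => rw [show φ (Tan.B T.south) (φ (Tan.B T.south) x) =
      φ ((Tan.W (T.w₁ c))⁻¹ * Tan.W (T.w₂ c)) (φ (Tan.B T.south) x) by rw [hc1]]
    rw [map_mul, map_inv, mul_apply, self_inv, h5, e1]
  rw [← (φ (Tan.W (T.w₁ c))).le_iff, e2]
  have h6 : φ (Tan.W T.east) x ≤ φ (Tan.W (T.w₂ d)) x :=
    T.white.symm.first_le (Tan.rep.map φ).white x (by rw [Tan.w_west φ x]; exact h.le) _
  have h7 : φ (Tan.W (T.w₁ c)) (φ (Tan.W T.east) x) ≤ φ (Tan.W T.west) (φ (Tan.W T.east) x) :=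
    T.white.symm.le_second (Tan.rep.map φ).white (φ (Tan.W T.east) x)
      (by rw [Tan.w_west φ]; exact ((φ (Tan.W T.east)).lt_iff.mpr h).le) _
  rw [Tan.w_west φ] at h7
  exact h7.trans h6

theorem pow_le_pow {X : Type} [LinearOrder X] (f : Aut X) {x : X} (h : x ≤ f x) {m n : ℕ}
    (hmn : m ≤ n) : (f ^ m) x ≤ (f ^ n) x := by
  induction n, hmn using Nat.le_induction with
  | base => exact le_rfl
  | succ n _ ih =>
    refine ih.trans ?_
    rw [pow_succ, mul_apply, le_iff]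
    exact h

theorem pow_le_pow' {X : Type} [LinearOrder X] (f : Aut X) {x : X} (h : f x ≤ x) {m n : ℕ}
    (hmn : m ≤ n) : (f ^ n) x ≤ (f ^ m) x := by
  induction n, hmn using Nat.le_induction with
  | base => exact le_rfl
  | succ n _ ih =>
    refine le_trans ?_ ih
    rw [pow_succ, mul_apply, le_iff]
    exact h

theorem rat_up {X : Type} [LinearOrder X] (φ : Multiplicative ℤ →* Aut X) {p q : ℕ}
    (hd : 2 * p ≤ q) (x : X) (h : x < φ (Multiplicative.ofAdd (q : ℤ)) x) :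
    φ (Multiplicative.ofAdd (p : ℤ)) (φ (Multiplicative.ofAdd (p : ℤ)) x) ≤
      φ (Multiplicative.ofAdd (q : ℤ)) x := by
  rw [Piece.rat_pow] at h
  rw [Piece.rat_pow φ p, Piece.rat_pow φ q, ← mul_apply, ← pow_add]
  refine pow_le_pow _ ?_ (by rw [← two_mul]; exact hd)
  by_contra hlt
  rw [not_le] at hlt
  have := pow_le_pow' _ hlt.le (Nat.zero_le q)
  rw [pow_zero, one_apply] at this
  exact absurd h (not_lt.mpr this)

theorem rat_down {X : Type} [LinearOrder X] (φ : Multiplicative ℤ →* Aut X) {p q : ℕ}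
    (hd : 2 * p ≤ q) (x : X) (h : φ (Multiplicative.ofAdd (q : ℤ)) x < x) :
    φ (Multiplicative.ofAdd (q : ℤ)) x ≤
      φ (Multiplicative.ofAdd (p : ℤ)) (φ (Multiplicative.ofAdd (p : ℤ)) x) := by
  rw [Piece.rat_pow] at h
  rw [Piece.rat_pow φ p, Piece.rat_pow φ q, ← mul_apply, ← pow_add]
  refine pow_le_pow' _ ?_ (by rw [← two_mul]; exact hd)
  by_contra hlt
  rw [not_le] at hlt
  have := pow_le_pow _ hlt.le (Nat.zero_le q)
  rw [pow_zero, one_apply] at this
  exact absurd h (not_lt.mpr this)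

theorem pdouble : ∀ T : Tang, Double T → PDouble T.piece
  | .rat _ _ _, hd =>
    { pos := fun _ _ φ x h => rat_up φ hd x h
      neg := fun _ _ φ x h => rat_down φ hd x h }
  | .alt _ _, hd =>
    { pos := fun _ _ φ x h => tan_up φ x hd h
      neg := fun _ _ φ x h => tan_down φ x hd h }

section
variable {X : Type} [LinearOrder X]

theorem dbl_of {P : Piece} (h1 : P.Ok) (h2 : PDouble P) (h3 : P.Proper) {ψ : P.P →* Aut X}
    {W E S N : Aut X} (hA : W⁻¹ * E = ψ P.A) (ha : N⁻¹ * S = ψ P.a) : Dbl W E S N := by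
  have eA : ∀ p, W⁻¹ (E p) = ψ P.A p := fun p => by rw [← mul_apply, hA]
  have ea : ∀ p, N⁻¹ (S p) = ψ P.a p := fun p => by rw [← mul_apply, ha]
  refine ⟨fun p hp => ?_, fun p hp => ?_⟩
  · rw [← le_inv, ea] at hp
    rw [ea, ea, eA]
    rcases lt_trichotomy p (ψ P.A p) with h | h | h
    · exact h2.pos X ψ p h
    · rw [h1.fix X ψ p h.symm, h1.fix X ψ p h.symm, h1.fix X ψ p h.symm]
    · exact absurd (h3.neg X ψ p h) (not_lt.mpr hp)
  · rw [← inv_le, ea] at hp
    rw [ea, ea, eA]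
    rcases lt_trichotomy p (ψ P.A p) with h | h | h
    · exact absurd (h3.pos X ψ p h) (not_lt.mpr hp)
    · rw [h1.fix X ψ p h.symm, h1.fix X ψ p h.symm, h1.fix X ψ p h.symm]
    · exact h2.neg X ψ p h

/-- the rules for a tangle of the sign `b` -/
def Dbl' (b : Bool) (W E S N : Aut X) : Prop := if b then Dbl W E S N else Dbl W E N S

/-- the rules of a chain -/
def DChn (R : ℕ → ZMod 3 → Aut X) (ε : ℕ → Bool) (k : ℕ) : Prop :=
  ∀ c, c < k → ∀ t, Dbl' (ε c) (R c (t + 1)) (R (c + 2) t) (R (c + 1) t) (R (c + 1) (t + 1))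

theorem Dbl.eq {W E S N : Aut X} (h : Dbl W E S N) {p : X} (hp : S p = N p) : W p = E p := by
  have e : N⁻¹ (S p) = p := by rw [hp, inv_self]
  have h1 := h.1 p hp.ge
  have h2 := h.2 p hp.le
  rw [e, e] at h1 h2
  have h3 := le_antisymm h1 h2
  conv_lhs => rw [h3]
  rw [self_inv]

theorem dflat {R : ℕ → ZMod 3 → Aut X} {ε : ℕ → Bool} {k : ℕ} (h : DChn R ε k)
    (h0 : ∀ t, R 0 t = R 0 0) (h1 : ∀ t, R (k + 1) t = R (k + 1) 0) (p : X) :
    (∀ i, i ≤ k + 1 → ∀ t, R i t p = R i 0 p) ∧ ∀ c, c < k → R c 0 p = R (c + 2) 0 p := by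
  have hD : ∀ c, c ≤ k → Dom (R c) (R (c + 1)) := by
    intro c
    induction c with
    | zero =>
      intro _ p i j
      refine ⟨0, 0, ?_⟩
      rw [h0 i, h0 j, inv_self, inv_self]
    | succ c ih =>
      intro hc
      have h2 := ih (by omega)
      cases hb : ε c
      · refine h2.step' fun t => ?_
        have := h c (by omega) t
        rw [hb] at this
        exact this
      · refine h2.step fun t => ?_
        have := h c (by omega) t
        rw [hb] at this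
        exact this
  have hF : ∀ d, d ≤ k + 1 → ∀ p t, R (k + 1 - d) t p = R (k + 1 - d) 0 p := by
    intro d
    induction d with
    | zero => intro _ p t; rw [Nat.sub_zero, h1 t]
    | succ d ih =>
      intro hd
      have h2 := ih (by omega)
      have h3 := hD (k + 1 - (d + 1)) (by omega)
      rw [show k + 1 - (d + 1) + 1 = k + 1 - d by omega] at h3
      have key : ∀ p i j, R (k + 1 - (d + 1)) j p ≤ R (k + 1 - (d + 1)) i p := by
        intro p i j
        obtain ⟨a, b, h4⟩ := h3 p i j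
        rw [inv_le] at h4
        refine h4.trans ?_
        rw [le_iff, inv_le, h2 p b, h2 p a]
      intro p t
      exact le_antisymm (key _ _ _) (key _ _ _)
  have hF' : ∀ i, i ≤ k + 1 → ∀ p t, R i t p = R i 0 p := by
    intro i hi
    have := hF (k + 1 - i) (by omega)
    rwa [show k + 1 - (k + 1 - i) = i by omega] at this
  refine ⟨fun i hi t => hF' i hi p t, fun c hc => ?_⟩
  have h2 : R c (0 + 1) p = R (c + 2) 0 p := by
    have h3 := h c hc 0
    have e : R (c + 1) 0 p = R (c + 1) (0 + 1) p := (hF' (c + 1) (by omega) p _).symm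
    cases hb : ε c <;> rw [hb] at h3
    · exact Dbl.eq h3 e.symm
    · exact Dbl.eq h3 e
  rw [← h2]
  exact (hF' c (by omega) p _).symm

end

variable {k : ℕ} {ε : Fin k → Bool} {M : Fin k → ZMod 3 → Piece}

theorem dchn {X : Type} [LinearOrder X] (φ : Three.Grp ε M →* Aut X)
    (h1 : ∀ c t, (M c t).Ok) (h2 : ∀ c t, PDouble (M c t)) (h3 : ∀ c t, (M c t).Proper) :
    DChn (Three.Rn φ) (Three.sg ε) k := by
  intro c hc t
  have hA := congrArg φ (Three.relA (ε := ε) (M := M) ⟨c, hc⟩ t)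
  rw [map_mul, map_inv, ← Three.Rn_eq, ← Three.Rn_eq, LO.Chain.left_val,
    LO.Chain.right_val] at hA
  have hs : Three.sg ε c = ε ⟨c, hc⟩ := Three.sg_eq ⟨c, hc⟩
  unfold Dbl'
  split_ifs with hb
  · have ha := congrArg φ (Three.rela (ε := ε) (M := M) ⟨c, hc⟩ t (by rw [← hs]; exact hb))
    rw [map_mul, map_inv, ← Three.Rn_eq, ← Three.Rn_eq, LO.Chain.mid_val] at ha
    exact dbl_of (h1 _ _) (h2 _ _) (h3 _ _) (ψ := φ.comp (Three.inc ⟨c, hc⟩ t)) hA ha
  · have ha := congrArg φ (Three.rela' (ε := ε) (M := M) ⟨c, hc⟩ t (by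
      rw [← hs]; simpa using hb))
    rw [map_mul, map_inv, ← Three.Rn_eq, ← Three.Rn_eq, LO.Chain.mid_val] at ha
    exact dbl_of (h1 _ _) (h2 _ _) (h3 _ _) (ψ := φ.comp (Three.inc ⟨c, hc⟩ t)) hA ha

theorem double_bounded : ∀ {T : Tang}, Double T → T.Bounded
  | .rat p q _, h => by
    have : 2 * p ≤ q := h
    show p ≤ q
    omega
  | .alt _ _, ⟨c, _, h1, h2, _⟩ => ⟨c, h1, h2⟩

/-- Chains with three tangles in each column, with two crossings in a row in each tangle. -/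
theorem noLO (T : Fin k → ZMod 3 → Tang) (hd : ∀ c t, Double (T c t))
    (hp : ∀ c t, (T c t).Proper) : NoLO (ThreeChain ε T) := by
  intro H _ hH f γ
  refine hom_trivial (1 : ThreeChain ε T) ?_ ?_ H hH f γ
  · intro X _ φ x _ γ
    exact Three.trivial_of_flat φ (fun _ _ e0 eL p => dflat
      (dchn φ (fun c t => (T c t).ok) (fun c t => pdouble _ (hd c t))
        (fun c t => (T c t).proper (hp c t))) e0 eL p)
      (fun c t => (T c t).ok) (fun c t => (T c t).bounded (double_bounded (hd c t)))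
      (fun c t => (T c t).proper (hp c t)) x γ
  · intro X _ _ φ h
    obtain ⟨x⟩ := ‹Nonempty X›
    have := h x
    rw [map_one, one_apply] at this
    exact lt_irrefl _ this

end Pool.Agent.K7.H46.TD
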