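import Pool.Agent.K7.H46.TD.Main
import Pool.Agent.K7.H46.TS.Main

set_option autoImplicit false

/-!
# Chains with several places with four equal signs
-/

namespace Pool.Agent.K7.H46.TD

open Pool.Agent.Y479.LS Pool.Agent.K7.H39.TB Pool.Agent.K7.H46.LO Pool.Agent.K7.H46.TW
  Pool.Agent.K7.H46.TS Aut

section
variable {X : Type*} [LinearOrder X] {v w z : ZMod 3 → Aut X}

/-- A column of tangles with two crossings in a row, of any sign. -/
theorem dom_col {b : Bool} (hA : ∀ t, (if b then Dbl (v (t + 1)) (z t) (w t) (w (t + 1)) else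
      Dbl (v (t + 1)) (z t) (w (t + 1)) (w t))) (hD : Dom v w) :
    Dom w z ∧ (Dom z w → ∀ p i j, w j p ≤ w i p) := by
  cases b with
  | true => exact ⟨hD.step hA, fun hz => hD.const hA hz⟩
  | false =>
    simp only [Bool.false_eq_true, if_false] at hA
    have h1 : Dom (fun t => v (-t)) (fun t => w (-t - 1)) :=
      hD.of (fun i => ⟨-i, rfl⟩) (fun k => ⟨-k - 1, by rw [show -(-k - 1) - 1 = k by ring]⟩)
    have h2 : ∀ t, Dbl ((fun t => v (-t)) (t + 1)) ((fun t => z (-t - 2)) t)
        ((fun t => w (-t - 1)) t) ((fun t => w (-t - 1)) (t + 1)) := by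
      intro t
      have := hA (-t - 2)
      rw [show -t - 2 + 1 = -t - 1 by ring] at this
      simp only [show -(t + 1) = -t - 1 by ring, show -t - 1 - 1 = -t - 2 by ring]
      exact this
    refine ⟨?_, fun hz p i j => ?_⟩
    · exact (h1.step h2).of (fun i => ⟨-i - 1, by rw [show -(-i - 1) - 1 = i by ring]⟩)
        (fun k => ⟨-k - 2, rfl⟩)
    · have h3 : Dom (fun t => z (-t - 2)) (fun t => w (-t - 1)) :=
        hz.of (fun i => ⟨-i - 2, rfl⟩) (fun k => ⟨-k - 1, by rw [show -(-k - 1) - 1 = k by ring]⟩)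
      have h4 := h1.const h2 h3 p (-i - 1) (-j - 1)
      simp only [show -(-i - 1) - 1 = i by ring, show -(-j - 1) - 1 = j by ring] at h4
      exact h4

/-- The first column of a block, after a block of the other sign. -/
theorem dom_first (hA : ∀ t, Tri (v (t + 1)) (z t) (w t) (w (t + 1)))
    (hL : ∀ p t, ((∀ u, w u p ≤ w t p) → v t p ≤ v (t + 1) p) ∧
      ((∀ u, w t p ≤ w u p) → v (t + 1) p ≤ v t p)) : Dom w z := by
  intro p i j
  obtain ⟨⟨s, t⟩, hmax⟩ := Finite.exists_max fun q : ZMod 3 × ZMod 3 => (w q.1)⁻¹ (w q.2 p)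
  have hmax' : ∀ k l, (w k)⁻¹ (w l p) ≤ (w s)⁻¹ (w t p) := fun k l => hmax (k, l)
  suffices h : ∃ k l, (w s)⁻¹ (w t p) ≤ (z k)⁻¹ (z l p) by
    obtain ⟨k, l, h⟩ := h
    exact ⟨k, l, (hmax' i j).trans h⟩
  obtain ⟨q, hq⟩ : ∃ q, q = (w s)⁻¹ (w t p) := ⟨_, rfl⟩
  have hpq : p ≤ q := by
    have := hmax' 0 0
    rwa [inv_self, ← hq] at this
  have e1 : w s q = w t p := by rw [hq, self_inv]
  have hmin : ∀ u, w s q ≤ w u q := by
    intro u
    rw [e1, ← inv_le, hq]
    exact hmax' u t
  have hmx : ∀ u, w u p ≤ w t p := by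
    intro u
    have := hmax' s u
    rwa [le_iff] at this
  rcases zmod3_cases t s with h | h | h
  · refine ⟨0, 0, ?_⟩
    rw [h, inv_self, inv_self]
  · subst h
    have h1 := (hL q (t + 1)).2 hmin
    rw [show t + 1 + 1 = t + 2 by ring] at h1
    have h2 := ((hA t).2.2 (w t p)).1
    rw [inv_self, ← hq] at h2
    have h3 := ((hA (t + 1)).1 q).2
    rw [show t + 1 + 1 = t + 2 by ring] at h3
    have h4 := h3.mpr (hmin (t + 2))
    refine ⟨t + 1, t, ?_⟩
    rw [← hq, le_inv]
    exact h4.trans (h1.trans (h2 hpq))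
  · obtain rfl : t = s + 1 := by rw [h, add_assoc]; exact (add_zero t).symm
    have h1 := (hL p (s + 1)).1 hmx
    rw [show s + 1 + 1 = s + 2 by ring] at h1
    have h2 := ((hA s).2.2 (w s q)).2
    rw [inv_self, e1, inv_self] at h2
    have h3 := ((hA (s + 1)).1 p).1
    rw [show s + 1 + 1 = s + 2 by ring] at h3
    have h4 := h3.mpr (hmx (s + 2))
    refine ⟨s, s + 1, ?_⟩
    rw [← hq, le_inv]
    exact (h2 hpq).trans (h1.trans h4)

end

section
variable {X : Type*} [LinearOrder X] {R : ℕ → ZMod 3 → Aut X} {ε : ℕ → Bool} {k : ℕ}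

/-- the information from the left -/
theorem left_info' (hC : ∀ E r, 1 ≤ r → r ≤ 3 → Certs E r) (h : Chn R ε k)
    (h0 : ∀ t, R 0 t = R 0 0) {j : ℕ} (hj : Four ε k j) (hu : ∀ i, Four ε k i → j ≤ i) :
    j = 0 ∨ Lft (fam R (ε j) j 0) (fam R (ε j) j 1) := by
  obtain ⟨hjk, hj'⟩ := hj
  have hrun : ∀ a, a + 3 < j + 3 → ∃ i, a ≤ i ∧ i ≤ a + 3 ∧ ε i ≠ ε a := by
    intro a ha
    by_contra hn
    push Not at hn
    have := hu a ⟨by omega, fun i h1 h2 => hn i h1 h2⟩
    omega
  obtain ⟨a, ha, hs, hl, hr⟩ := inv (k := j + 3) (R := R) (ε := ε) hC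
    (fun c hc t => h c (by omega) t) h0 hrun (j + 3) (by omega) le_rfl
  have haj : a = j := by
    rcases Nat.lt_trichotomy a j with h1 | h1 | h1
    · have : Four ε k a := ⟨by omega, fun i h2 h3 => hs i h2 (by omega)⟩
      have := hu a this
      omega
    · exact h1
    · rcases hl with h2 | ⟨h2, -⟩
      · omega
      · exact absurd ((hj' (a - 1) (by omega) (by omega)).trans
          (hj' a (by omega) (by omega)).symm) h2
  subst haj
  exact hl.imp_right And.right

theorem left_dom (hC : ∀ E r, 1 ≤ r → r ≤ 3 → Certs E r) (h : Chn R ε k)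
    (h0 : ∀ t, R 0 t = R 0 0) {j : ℕ} (hj : Four ε k j) (hu : ∀ i, Four ε k i → j ≤ i) :
    Dom (R (j + 1)) (R (j + 2)) := by
  have hjk := hj.1
  have hl := left_info' hC h h0 hj hu
  have hB : Blk 1 (fam R (ε j) j) := h.blk (by omega) (fun i h1 h2 => by
    rw [show i = j by omega])
  have h1 : Dom (fam R (ε j) j 1) (fam R (ε j) j 2) := by
    refine dom_first (v := fam R (ε j) j 0) (fun t => hB 0 (by omega) t) fun p t => ?_
    rcases hl with rfl | hl
    · have e : ∀ t, fam R (ε 0) 0 0 t = R 0 0 := by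
        intro t
        cases ε 0 <;> simp only [fam, Nat.zero_add, Bool.false_eq_true, if_false, if_true]
        · exact h0 _
        · exact h0 t
      rw [e, e]
      exact ⟨fun _ => le_rfl, fun _ => le_rfl⟩
    · exact ⟨(hl p t).1, (hl p t).2.2.1⟩
  refine h1.of (fun i => ?_) (fun k => ?_)
  · cases hb : ε j with
    | true => exact ⟨i, by simp only [fam, if_true]⟩
    | false =>
      refine ⟨-i - 1, ?_⟩
      simp only [fam, Bool.false_eq_true, if_false]
      congr 1
      push_cast
      ring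
  · cases hb : ε j with
    | true => exact ⟨k, by simp only [fam, if_true]⟩
    | false => exact ⟨_, by simp only [fam, Bool.false_eq_true, if_false]; rfl⟩

/-- If all columns are constant, then the columns of the same parity agree. -/
theorem flat_of_const (h : Chn R ε k) (hc : ∀ i, i ≤ k + 1 → ∀ t, R i t = R i 0) (p : X) :
    (∀ i, i ≤ k + 1 → ∀ t, R i t p = R i 0 p) ∧ ∀ c, c < k → R c 0 p = R (c + 2) 0 p := by
  refine ⟨fun i hi t => by rw [hc i hi t], fun c hck => ?_⟩
  have h8 := h c hck 0
  have h9 : R c (0 + 1) p = R (c + 2) 0 p := by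
    unfold Tri' at h8
    have e : R (c + 1) 0 p = R (c + 1) (0 + 1) p := by rw [hc (c + 1) (by omega) (0 + 1)]
    split_ifs at h8
    · exact (h8.iff_eq p).mpr e
    · exact (h8.iff_eq p).mpr e.symm
  rw [← h9, hc c (by omega) (0 + 1)]

theorem const_of_flat {i : ℕ} (h : ∀ (p : X) t, R i t p = R i 0 p) (t : ZMod 3) :
    R i t = R i 0 := Aut.ext' fun p => h p t

/-- All regions of a column agree everywhere, and so do the columns of the same parity. -/
theorem all_flat2 (hC : ∀ E r, 1 ≤ r → r ≤ 3 → Certs E r)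
    (hD : ∀ A B : Bool, Ct A B [true, true, true, true]
      ((if A then [] else [(0, false)]) ++ [(1, true), (2, true), (3, true)] ++
        (if B then [] else [(4, false)])) [⟨[2 * cd 3 1], [2 * cd 3 0], true⟩])
    (h : Chn R ε k) (hk : 1 ≤ k) (h0 : ∀ t, R 0 t = R 0 0) (h1 : ∀ t, R (k + 1) t = R (k + 1) 0)
    (hu : ∀ i j, Four ε k i → Four ε k j → i < j → ∀ e, i < e → e < j + 3 → ∀ t,
      (if ε e then Dbl (R e (t + 1)) (R (e + 2) t) (R (e + 1) t) (R (e + 1) (t + 1)) else
        Dbl (R e (t + 1)) (R (e + 2) t) (R (e + 1) (t + 1)) (R (e + 1) t))) (p : X) :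
    (∀ i, i ≤ k + 1 → ∀ t, R i t p = R i 0 p) ∧ ∀ c, c < k → R c 0 p = R (c + 2) 0 p := by
  by_cases hF : ∃ i j, Four ε k i ∧ Four ε k j ∧ i < j
  swap
  · push Not at hF
    exact all_flat' hC hD h hk h0 h1
      (fun i j hi hj => le_antisymm (hF j i hj hi) (hF i j hi hj)) p
  obtain ⟨i₀, j₀, hi₀, hj₀, hij₀⟩ := hF
  -- the first and the last place
  classical
  obtain ⟨a, ha, hamin⟩ : ∃ a, Four ε k a ∧ ∀ i, Four ε k i → a ≤ i := by
    refine ⟨Nat.find ⟨i₀, hi₀⟩, Nat.find_spec (⟨i₀, hi₀⟩ : ∃ i, Four ε k i), fun i hi => ?_⟩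
    exact Nat.find_min' _ hi
  obtain ⟨b, hb, hbmax⟩ : ∃ b, Four ε k b ∧ ∀ i, Four ε k i → i ≤ b := by
    have hex : ∃ m, ∀ i, Four ε k i → i ≤ m := ⟨k, fun i hi => by have := hi.1; omega⟩
    refine ⟨Nat.find hex, ?_, Nat.find_spec hex⟩
    by_contra hn
    have h3 : 0 < Nat.find hex := by
      by_contra h4
      have h5 := Nat.find_spec hex j₀ hj₀
      omega
    refine Nat.find_min hex (m := Nat.find hex - 1) (by omega) fun i hi => ?_
    have h4 := Nat.find_spec hex i hi
    have h5 : i ≠ Nat.find hex := fun h6 => hn (h6 ▸ hi)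
    omega
  have hab : a < b := by
    have := hamin i₀ hi₀
    have := hbmax j₀ hj₀
    omega
  have hak := ha.1
  have hbk := hb.1
  have hdb := hu a b ha hb hab
  -- from the left
  have hL : ∀ d, d ≤ b + 2 - a → Dom (R (a + 1 + d)) (R (a + 2 + d)) := by
    intro d
    induction d with
    | zero => intro _; exact left_dom hC h h0 ha hamin
    | succ d ih =>
      intro hd
      have h2 := (dom_col (hdb (a + 1 + d) (by omega) (by omega)) (by
        rw [show a + 1 + d + 1 = a + 2 + d by omega]
        exact ih (by omega))).1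
      rw [show a + 1 + d + 1 = a + 1 + (d + 1) by omega,
        show a + 1 + d + 2 = a + 2 + (d + 1) by omega] at h2
      exact h2
  -- from the right
  have hε : ∀ i, i < k → mε ε k (k - 1 - i) = ε i := fun i hi => by
    unfold mε; congr 1; omega
  have hF1 : ∀ j, Four ε k j → Four (mε ε k) k (k - 4 - j) := by
    intro j hj
    have hjk := hj.1
    have hbj : mε ε k (k - 4 - j) = ε j := by
      have := hε (j + 3) (by omega)
      rw [show k - 1 - (j + 3) = k - 4 - j by omega] at this
      rw [this, hj.2 (j + 3) (by omega) le_rfl]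
    refine ⟨by omega, fun i h2 h3 => ?_⟩
    rw [hbj]
    unfold mε
    exact hj.2 _ (by omega) (by omega)
  have hF2 : ∀ i, Four (mε ε k) k i → Four ε k (k - 4 - i) := by
    intro i hi
    have hik := hi.1
    refine ⟨by omega, fun a h3 h4 => ?_⟩
    rw [← hε a (by omega), hi.2 _ (by omega) (by omega), ← hε (k - 4 - i) (by omega),
      hi.2 (k - 1 - (k - 4 - i)) (by omega) (by omega)]
  have hR : Dom (R (b + 4)) (R (b + 3)) := by
    have h2 := left_dom hC (chn_mirror h) (fun t => by
      unfold mR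
      rw [Nat.sub_zero, h1 (-t), h1 (-0)]) (hF1 b hb) (fun i hi => by
        have := hbmax _ (hF2 i hi)
        have := hi.1
        omega)
    refine h2.of (fun i => ⟨-i, ?_⟩) (fun l => ⟨-l, ?_⟩)
    · unfold mR
      rw [neg_neg]
      congr 1
      omega
    · unfold mR
      congr 1
      omega
  -- the column `b + 3`
  have hc3 : ∀ t, R (b + 3) t = R (b + 3) 0 := by
    have h2 := (dom_col (hdb (b + 2) (by omega) (by omega)) (by
      have := hL (b + 1 - a) (by omega)
      rw [show a + 1 + (b + 1 - a) = b + 2 by omega,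
        show a + 2 + (b + 1 - a) = b + 2 + 1 by omega] at this
      exact this)).2
    have h3 := h2 hR
    intro t
    refine Aut.ext' fun p => le_antisymm (h3 p 0 t) (h3 p t 0)
  -- the columns `a + 1`, ..., `b + 3`
  have hcd : ∀ d, d ≤ b + 2 - a → ∀ t, R (b + 3 - d) t = R (b + 3 - d) 0 := by
    intro d
    induction d with
    | zero => intro _; exact hc3
    | succ d ih =>
      intro hd t
      have h2 := ih (by omega)
      have h3 := hL (b + 1 - a - d) (by omega)
      rw [show a + 1 + (b + 1 - a - d) = b + 3 - (d + 1) by omega,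
        show a + 2 + (b + 1 - a - d) = b + 3 - d by omega] at h3
      have key : ∀ p i j, R (b + 3 - (d + 1)) j p ≤ R (b + 3 - (d + 1)) i p := by
        intro p i j
        obtain ⟨x, y, h4⟩ := h3 p i j
        rw [inv_le] at h4
        refine h4.trans ?_
        rw [le_iff, inv_le, h2 y, h2 x]
      exact Aut.ext' fun p => le_antisymm (key p 0 t) (key p t 0)
  have hcm : ∀ i, a + 1 ≤ i → i ≤ b + 3 → ∀ t, R i t = R i 0 := by
    intro i h2 h3
    have := hcd (b + 3 - i) (by omega)
    rwa [show b + 3 - (b + 3 - i) = i by omega] at this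
  -- the columns before
  have hcl : ∀ i, i ≤ a + 1 → ∀ t, R i t = R i 0 := by
    rcases Nat.eq_zero_or_pos a with rfl | ha0
    · intro i hi
      rcases Nat.lt_or_ge i 1 with h2 | h2
      · obtain rfl : i = 0 := by omega
        exact h0
      · exact hcm i (by omega) (by omega)
    · intro i hi t
      refine Aut.ext' fun p => ?_
      exact (all_flat (k := a) (R := R) (ε := ε) hC (fun c hc t => h c (by omega) t)
        ha0 h0 (hcm (a + 1) le_rfl (by omega)) (by
          intro x hx
          by_contra hn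
          push Not at hn
          have := hamin x ⟨by omega, fun i h1 h2 => hn i h1 h2⟩
          omega) p).1 i hi t
  -- the columns after
  have hcr : ∀ i, b + 3 ≤ i → i ≤ k + 1 → ∀ t, R i t = R i 0 := by
    intro i h2 h3 t
    refine Aut.ext' fun p => ?_
    have := (all_flat (k := k - (b + 3)) (R := fun i => R (b + 3 + i))
      (ε := fun i => ε (b + 3 + i)) hC (fun c hc t => h (b + 3 + c) (by omega) t)
      (by omega) (hcm (b + 3) (by omega) le_rfl) (by
        intro t
        have e : b + 3 + (k - (b + 3) + 1) = k + 1 := by omega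
        simp only [e]
        exact h1 t) (by
        intro x hx
        by_contra hn
        push Not at hn
        have := hbmax (b + 3 + x) ⟨by omega, fun i h1 h2 => by
          have := hn (i - (b + 3)) (by omega) (by omega)
          rwa [show b + 3 + (i - (b + 3)) = i by omega] at this⟩
        omega) p).1 (i - (b + 3)) (by omega) t
    simp only [show b + 3 + (i - (b + 3)) = i by omega] at this
    exact this
  refine flat_of_const h (fun i hi => ?_) p
  rcases Nat.lt_or_ge i (a + 1) with h2 | h2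
  · exact hcl i (by omega)
  · rcases Nat.lt_or_ge i (b + 3) with h3 | h3
    · exact hcm i h2 (by omega)
    · exact hcr i h3 hi

end

end Pool.Agent.K7.H46.TD
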