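import Pool.Agent.K7.H39.TB.Pub

set_option autoImplicit false

/-!
# Tangles with two crossings in a row
-/

namespace Pool.Agent.K7.H46.TD

open Pool.Agent.K7.H39.TB (Tang)

/-- Rational tangles with `p / q ≤ 1 / 2`, and alternating diagrams with two consecutive crossings at
which both black regions are `north` and `south`, so that the tangle is a sum of tangles, one of which
is the rational tangle `1 / 2` given by these two crossings. -/
def Double : Tang → Prop
  | .rat p q _ => 2 * p ≤ q
  | .alt T _ => ∃ c d, T.b₁ c = T.south ∧ T.b₂ c = T.north ∧ T.b₁ d = T.south ∧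
      T.b₂ d = T.north ∧ T.w₂ c = T.w₁ d

end Pool.Agent.K7.H46.TD
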